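import Mathlib

/-!
# Linear sections of `Gr(2, 5)` of codimension 3 over `ℚ`: definitions

`A` is a triple of 5 × 5 matrices over `ℚ` (alternating in the applications): `X_A` is the variety of the
planes in the 5-dimensional space on which the three alternating forms `A 0`, `A 1`, `A 2` vanish.

The definitions are those of `Pool/Agent/Results/MP_1acd66_nt/QuinticThreefoldAllPoints.lean`, with `A`
as a parameter.
-/

set_option autoImplicit false

namespace Pool.Agent.KS6_98.V5F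

/-- The Pluecker coordinates of the plane spanned by `x` and `y`. -/
def wedge {L : Type} [CommRing L] (x y : Fin 5 → L) : Fin 5 × Fin 5 → L :=
  fun p => x p.1 * y p.2 - x p.2 * y p.1

/-- The three forms vanish at `(x, y)`. -/
def IsoA (A : Fin 3 → Matrix (Fin 5) (Fin 5) ℚ) {L : Type} [Field L] (x y : Fin 5 → L) : Prop :=
  ∀ i, ∑ j, ∑ k, (A i j k : L) * x j * y k = 0

/-- `p` is a rational point of `X_A`. -/
def IsPoint (A : Fin 3 → Matrix (Fin 5) (Fin 5) ℚ)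
    (p : Projectivization ℚ (Fin 5 × Fin 5 → ℚ)) : Prop :=
  ∃ x y : Fin 5 → ℚ, IsoA A x y ∧ p.rep = wedge x y

/-- The cone over `X_A(L)`. -/
def Cone (A : Fin 3 → Matrix (Fin 5) (Fin 5) ℚ) (L : Type) [NormedField L] :
    Set (Fin 5 × Fin 5 → L) :=
  {q | q ≠ 0 ∧ ∃ x y : Fin 5 → L, IsoA A x y ∧ q = wedge x y}

/-- A positive continuous function on `X_A(L)`. -/
structure IsFactor (A : Fin 3 → Matrix (Fin 5) (Fin 5) ℚ) (L : Type) [NormedField L]
    (ψ : (Fin 5 × Fin 5 → L) → ℝ) : Prop where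
  positive : ∀ q ∈ Cone A L, 0 < ψ q
  continuous : ContinuousOn ψ (Cone A L)
  invariant : ∀ a : L, a ≠ 0 → ∀ q ∈ Cone A L, ψ (a • q) = ψ q

/-- The elements of `Nat.Primes` are prime numbers. -/
local instance factPrime' (l : Nat.Primes) : Fact (l : ℕ).Prime := ⟨l.2⟩

/-- The height of a point, for the local factors `ψ` (real) and `φ l` (`l` in `S`). -/
noncomputable def height (S : Finset Nat.Primes) (ψ : (Fin 5 × Fin 5 → ℝ) → ℝ)
    (φ : ∀ l : Nat.Primes, (Fin 5 × Fin 5 → ℚ_[l]) → ℝ)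
    (p : Projectivization ℚ (Fin 5 × Fin 5 → ℚ)) : ℝ :=
  p.mulHeight ^ 2 * (ψ (fun q => (p.rep q : ℝ)) * ∏ l ∈ S, φ l (fun q => (p.rep q : ℚ_[l])))

/-- The rational points of `X_A` of height at most `B`. -/
def bounded (A : Fin 3 → Matrix (Fin 5) (Fin 5) ℚ) (S : Finset Nat.Primes)
    (ψ : (Fin 5 × Fin 5 → ℝ) → ℝ) (φ : ∀ l : Nat.Primes, (Fin 5 × Fin 5 → ℚ_[l]) → ℝ) (B : ℝ) :
    Set (Projectivization ℚ (Fin 5 × Fin 5 → ℚ)) :=
  {p | IsPoint A p ∧ height S ψ φ p ≤ B}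

/-- Manin's conjecture for `X_A`, for all points and all adelic anticanonical heights. -/
def MAN (A : Fin 3 → Matrix (Fin 5) (Fin 5) ℚ) : Prop :=
  ∀ (S : Finset Nat.Primes) (ψ : (Fin 5 × Fin 5 → ℝ) → ℝ)
    (φ : ∀ l : Nat.Primes, (Fin 5 × Fin 5 → ℚ_[l]) → ℝ), IsFactor A ℝ ψ →
    (∀ l ∈ S, IsFactor A ℚ_[l] (φ l)) →
    ∃ c : ℝ, 0 < c ∧ Filter.Tendsto (fun B : ℝ => ((bounded A S ψ φ B).ncard : ℝ) / B)
      Filter.atTop (nhds c)

end Pool.Agent.KS6_98.V5F
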