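import Mathlib

/-!
# Product formula for the height of a rational point

For a nonzero vector `q` of rational numbers the multiplicative height of Mathlib is the product of
the sup norm of `q` over the real numbers with the sup norms of `q` over the `l`-adic numbers, for the
primes `l` in any sufficiently large finite set.
-/

set_option autoImplicit false

namespace Pool.Agent.KS6_98.V5F

open Finset Filter Topology

/-- The elements of `Nat.Primes` are prime numbers. -/
local instance factPrime (l : Nat.Primes) : Fact (l : ℕ).Prime := ⟨l.2⟩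

/-- primes outside of a finite set do not divide a nonzero natural number -/
theorem exists_primes (n : ℕ) (hn : n ≠ 0) : ∃ T : Finset Nat.Primes, ∀ l : Nat.Primes, (l : ℕ) ∣ n → l ∈ T := by
  classical
  have hf : {l : Nat.Primes | (l : ℕ) ∣ n}.Finite := by
    have h1 : (Subtype.val '' {l : Nat.Primes | (l : ℕ) ∣ n}).Finite := by
      refine (n.divisors.finite_toSet).subset ?_
      rintro _ ⟨l, hl, rfl⟩
      exact Finset.mem_coe.2 (Nat.mem_divisors.2 ⟨hl, hn⟩)
    exact h1.of_finite_image Subtype.val_injective.injOn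
  exact ⟨hf.toFinset, fun l hl => hf.mem_toFinset.2 hl⟩

theorem prod_nat (n : ℕ) : n ≠ 0 → ∀ T : Finset Nat.Primes, (∀ l : Nat.Primes, (l : ℕ) ∣ n → l ∈ T) →
    ∏ l ∈ T, ‖(n : ℚ_[l])‖ = (n : ℝ)⁻¹ := by
  induction n using induction_on_primes with
  | zero => intro h; exact absurd rfl h
  | one => intro _ T _; simp
  | prime_mul p a hp ih =>
    intro hn T hT
    have ha : a ≠ 0 := fun h => hn (by simp [h])
    have h1 := ih ha T fun l hl => hT l (hl.mul_left p)
    have h2 : ∏ l ∈ T, ‖(p : ℚ_[l])‖ = (p : ℝ)⁻¹ := by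
      have hpT : (⟨p, hp⟩ : Nat.Primes) ∈ T := hT ⟨p, hp⟩ (Dvd.intro a rfl)
      refine (Finset.prod_eq_single_of_mem (⟨p, hp⟩ : Nat.Primes) hpT ?_).trans
        (@Padic.norm_p p ⟨hp⟩)
      intro l _ hl
      have : Fact (l : ℕ).Prime := ⟨l.2⟩
      refine Padic.norm_natCast_eq_one_iff.2 ?_
      refine (Nat.coprime_primes l.2 hp).2 ?_
      intro h
      exact hl (Subtype.ext h)
    push_cast
    simp only [norm_mul, Finset.prod_mul_distrib]
    rw [h1, h2, mul_inv]

/-- product formula -/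
theorem prod_rat {c : ℚ} (hc : c ≠ 0) : ∃ T₀ : Finset Nat.Primes, ∀ T : Finset Nat.Primes, T₀ ⊆ T →
    |(c : ℝ)| * ∏ l ∈ T, ‖(c : ℚ_[l])‖ = 1 := by
  classical
  obtain ⟨T1, h1⟩ := exists_primes c.num.natAbs (by simpa using hc)
  obtain ⟨T2, h2⟩ := exists_primes c.den c.den_nz
  refine ⟨T1 ∪ T2, fun T hT => ?_⟩
  have e1 := prod_nat c.num.natAbs (by simpa using hc) T fun l hl =>
    hT (Finset.mem_union_left _ (h1 l hl))
  have e2 := prod_nat c.den c.den_nz T fun l hl => hT (Finset.mem_union_right _ (h2 l hl))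
  have hd : (c.den : ℝ) ≠ 0 := by exact_mod_cast c.den_nz
  have e3 : ∏ l ∈ T, ‖(c : ℚ_[l])‖ = (∏ l ∈ T, ‖(c.num.natAbs : ℚ_[l])‖) / ∏ l ∈ T, ‖(c.den : ℚ_[l])‖ := by
    rw [← Finset.prod_div_distrib]
    refine Finset.prod_congr rfl fun l _ => ?_
    have e4 : (c : ℚ_[l]) = (c.num : ℚ_[l]) / (c.den : ℚ_[l]) := by
      conv_lhs => rw [← Rat.num_div_den c]
      push_cast
      rfl
    rw [e4, norm_div]
    congr 1
    have h6 : ((c.num.natAbs : ℕ) : ℚ_[l]) = ((c.num.natAbs : ℤ) : ℚ_[l]) := (Int.cast_natCast _).symm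
    rw [h6]
    rcases Int.natAbs_eq c.num with h5 | h5
    · rw [← h5]
    · conv_lhs => rw [h5]
      rw [Int.cast_neg, norm_neg]
  rw [e3, e1, e2]
  have e5 : |(c : ℝ)| = (c.num.natAbs : ℝ) / c.den := by
    conv_lhs => rw [← Rat.num_div_den c]
    push_cast
    rw [abs_div, Nat.abs_cast, Nat.cast_natAbs]
    push_cast
    rfl
  rw [e5]
  have h7 : (c.num.natAbs : ℝ) ≠ 0 := by
    have : c.num.natAbs ≠ 0 := by simpa using hc
    exact_mod_cast this
  field_simp

variable {ι : Type} [Fintype ι] [Nonempty ι]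

/-- a nonzero rational vector is a multiple of a primitive integral vector -/
theorem exists_primitive {q : ι → ℚ} (hq : q ≠ 0) : ∃ (c : ℚ) (w : ι → ℤ), c ≠ 0 ∧
    Finset.univ.gcd w = 1 ∧ q = c • (fun i => (w i : ℚ)) := by
  classical
  -- common denominator
  set D : ℕ := ∏ i, (q i).den with hD
  have hD0 : D ≠ 0 := Finset.prod_ne_zero_iff.2 fun i _ => (q i).den_nz
  have h1 : ∀ i, ∃ z : ℤ, (z : ℚ) = D * q i := by
    intro i
    obtain ⟨k, hk⟩ := Finset.dvd_prod_of_mem (fun i => (q i).den) (Finset.mem_univ i)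
    refine ⟨k * (q i).num, ?_⟩
    have h2 : (D : ℚ) = (q i).den * k := by rw [hD, hk]; push_cast; rfl
    rw [h2]
    push_cast
    have h3 : (q i) * (q i).den = (q i).num := Rat.mul_den_eq_num (q i)
    rw [← h3]
    ring
  choose z hz using h1
  have hz0 : z ≠ 0 := by
    intro h
    apply hq
    funext i
    have h2 := hz i
    rw [h] at h2
    simp only [Pi.zero_apply, Int.cast_zero] at h2
    rcases mul_eq_zero.1 h2.symm with h3 | h3
    · exact absurd (by exact_mod_cast h3) hD0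
    · exact h3
  obtain ⟨w, hw1, hw2⟩ := Finset.extract_gcd z (Finset.univ_nonempty (α := ι))
  have hg : Finset.univ.gcd z ≠ 0 := by
    intro h
    rw [Finset.gcd_eq_zero_iff] at h
    exact hz0 (funext fun i => h i (Finset.mem_univ i))
  refine ⟨((Finset.univ.gcd z : ℤ) : ℚ) / D, w, ?_, hw2, ?_⟩
  · exact div_ne_zero (by exact_mod_cast hg) (by exact_mod_cast hD0)
  · funext i
    have h2 := hz i
    rw [hw1 i (Finset.mem_univ i)] at h2
    have h3 : (D : ℚ) ≠ 0 := by exact_mod_cast hD0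
    simp only [Pi.smul_apply, smul_eq_mul]
    field_simp
    push_cast at h2
    linarith

omit [Nonempty ι] in
theorem norm_padic_primitive (l : Nat.Primes) {w : ι → ℤ} (hw : Finset.univ.gcd w = 1) :
    ‖fun i => (w i : ℚ_[l])‖ = 1 := by
  apply le_antisymm
  · exact (pi_norm_le_iff_of_nonneg zero_le_one).2 fun i => Padic.norm_int_le_one (w i)
  · by_contra hlt
    push Not at hlt
    have h1 : ∀ i, ((l : ℕ) : ℤ) ∣ w i := fun i =>
      Padic.norm_intCast_lt_one_iff.1 ((norm_le_pi_norm (fun i => (w i : ℚ_[l])) i).trans_lt hlt)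
    have h2 : ((l : ℕ) : ℤ) ∣ Finset.univ.gcd w := Finset.dvd_gcd fun i _ => h1 i
    rw [hw] at h2
    have h3 : (l : ℕ) ∣ 1 := by exact_mod_cast h2
    exact l.2.one_lt.ne' (Nat.dvd_one.1 h3)

theorem mulHeight_primitive {w : ι → ℤ} (hw : Finset.univ.gcd w = 1) :
    Height.mulHeight (fun i => (w i : ℚ)) = ‖fun i => (w i : ℝ)‖ := by
  have h2 := Rat.mulHeight_eq_max_abs_of_gcd_eq_one hw
  have h3 : (fun i => (w i : ℚ)) = (((↑) : ℤ → ℚ) ∘ w) := rfl
  rw [h3, h2]
  apply le_antisymm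
  · obtain ⟨i, hi⟩ := exists_eq_ciSup_of_finite (f := fun i => |w i|)
    rw [← hi, Int.cast_abs]
    exact norm_le_pi_norm (fun i => (w i : ℝ)) i
  · refine (pi_norm_le_iff_of_nonneg ?_).2 fun i => ?_
    · exact_mod_cast (abs_nonneg _).trans
        (le_ciSup (f := fun i => |w i|) (Set.finite_range _).bddAbove (Classical.arbitrary ι))
    · rw [Real.norm_eq_abs, ← Int.cast_abs]
      exact_mod_cast le_ciSup (f := fun i => |w i|) (Set.finite_range _).bddAbove i

/-- **Product formula for the height** -/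
theorem mulHeight_eq_prod {q : ι → ℚ} (hq : q ≠ 0) : ∃ T₀ : Finset Nat.Primes,
    ∀ T : Finset Nat.Primes, T₀ ⊆ T →
      Height.mulHeight q = ‖fun i => (q i : ℝ)‖ * ∏ l ∈ T, ‖fun i => (q i : ℚ_[l])‖ := by
  obtain ⟨c, w, hc, hw, he⟩ := exists_primitive hq
  obtain ⟨T₀, hT₀⟩ := prod_rat hc
  refine ⟨T₀, fun T hT => ?_⟩
  have h1 : Height.mulHeight q = ‖fun i => (w i : ℝ)‖ := by
    rw [he, Height.mulHeight_smul_eq_mulHeight _ hc, mulHeight_primitive hw]
  have h2 : (fun i => (q i : ℝ)) = (c : ℝ) • fun i => (w i : ℝ) := by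
    funext i
    rw [he]
    simp
  have h3 : ∀ l : Nat.Primes, ‖fun i => (q i : ℚ_[l])‖ = ‖(c : ℚ_[l])‖ := by
    intro l
    have h4 : (fun i => (q i : ℚ_[l])) = (c : ℚ_[l]) • fun i => (w i : ℚ_[l]) := by
      funext i
      rw [he]
      simp
    rw [h4, norm_smul, norm_padic_primitive l hw, mul_one]
  rw [h1, h2, norm_smul, Real.norm_eq_abs, Finset.prod_congr rfl fun l _ => h3 l]
  have h5 := hT₀ T hT
  calc ‖fun i => (w i : ℝ)‖ = (|(c : ℝ)| * ∏ l ∈ T, ‖(c : ℚ_[l])‖) * ‖fun i => (w i : ℝ)‖ := by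
        rw [h5, one_mul]
    _ = _ := by ring

end Pool.Agent.KS6_98.V5F
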