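import Pool.Agent.KS6_30.VF.Nets

/-!
# Uniqueness of the net with a given Pfaffian vector
-/

set_option autoImplicit false

namespace Pool.Agent.KS6_98.V5F

open Matrix Pool.Agent.KS6_30.VF

/-- The ten coefficients of one row of the relation. -/
theorem net_row {a b c : ℚ} (ha : a ≠ 0) (hb : b ≠ 0) (hc : c ≠ 0) (r : Fin 3 → Fin 5 → ℚ)
    (h : ∀ l : Fin 3 → ℚ, ∑ k, (∑ i, l i * r i k) * pf a b c l k = 0) :
    r 0 0 = 0 ∧ r 1 1 = r 1 0 ∧ r 2 1 = 0 ∧ r 0 4 = a * r 1 0 ∧ r 0 3 = -(a * r 2 0) ∧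
      r 1 4 = b * r 0 1 ∧ r 1 2 = -(b * r 2 0) ∧ r 2 3 = c * r 0 1 ∧ r 2 2 = -(c * r 1 0) ∧
      r 0 2 = r 1 3 - r 2 4 := by
  have H : ∀ x y z : ℚ,
      (x * r 0 0 + y * r 1 0 + z * r 2 0) * (b * y ^ 2 - a * x ^ 2) +
      (x * r 0 1 + y * r 1 1 + z * r 2 1) * (c * z ^ 2 - b * y ^ 2) +
      (x * r 0 2 + y * r 1 2 + z * r 2 2) * (y * z) +
      (x * r 0 3 + y * r 1 3 + z * r 2 3) * (-(x * z)) +
      (x * r 0 4 + y * r 1 4 + z * r 2 4) * (x * y) = 0 := by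
    intro x y z
    have := h ![x, y, z]
    simpa [pf, Fin.sum_univ_three, Fin.sum_univ_five] using this
  have e1 := H 1 0 0
  have e2 := H 0 1 0
  have e3 := H 0 0 1
  have e4 := H 1 1 0
  have e5 := H 1 (-1) 0
  have e6 := H 1 0 1
  have e7 := H 1 0 (-1)
  have e8 := H 0 1 1
  have e9 := H 0 1 (-1)
  have e10 := H 1 1 1
  have f1 : r 0 0 = 0 := mul_left_cancel₀ ha (by linarith)
  have f2 : r 1 1 = r 1 0 := mul_left_cancel₀ hb (by linarith)
  have f3 : r 2 1 = 0 := mul_left_cancel₀ hc (by linarith)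
  have g1 : b * r 0 0 = 0 := by rw [f1, mul_zero]
  have g2 : c * r 1 1 = c * r 1 0 := by rw [f2]
  have g3 : b * r 2 1 = 0 := by rw [f3, mul_zero]
  clear h H
  refine ⟨f1, f2, f3, ?_, ?_, ?_, ?_, ?_, ?_, ?_⟩ <;> linarith

theorem net_unique (A : Fin 3 → Matrix (Fin 5) (Fin 5) ℚ) (hA : ∀ i, (A i)ᵀ = -(A i))
    {a b c : ℚ} (ha : a ≠ 0) (hb : b ≠ 0) (hc : c ≠ 0)
    (h : ∀ l : Fin 3 → ℚ, (∑ i, l i • A i) *ᵥ pf a b c l = 0) :
    ∃ s : ℚ, ∀ i, A i = s • BB a b c i := by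
  have hS : ∀ i j k, A i j k = -(A i k j) := by
    intro i j k
    have := congrFun (congrFun (hA i) k) j
    simpa using this
  have hR := fun j : Fin 5 => net_row ha hb hc (fun i k => A i j k) (by
    intro l
    have := congrFun (h l) j
    simpa [Matrix.mulVec, dotProduct, Matrix.sum_apply, Matrix.smul_apply] using this)
  have hD : ∀ i j, A i j j = 0 := by
    intro i j
    have := hS i j j
    linarith
  obtain ⟨a00, a11, a21, a04, a03, a14, a12, a23, a22, a02⟩ := hR 0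
  obtain ⟨b00, b11, b21, b04, b03, b14, b12, b23, b22, b02⟩ := hR 1
  obtain ⟨c00, c11, c21, c04, c03, c14, c12, c23, c22, c02⟩ := hR 2
  obtain ⟨d00, d11, d21, d04, d03, d14, d12, d23, d22, d02⟩ := hR 3
  obtain ⟨g00, g11, g21, g04, g03, g14, g12, g23, g22, g02⟩ := hR 4
  clear hR h
  -- row 0
  have B0 : A 1 0 0 = 0 := hD 1 0
  have C0 : A 2 0 0 = 0 := hD 2 0
  have AA1 : A 0 1 1 = 0 := hD 0 1
  have B1 : A 1 1 0 = 0 := by
    have := hD 1 1
    linarith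
  have B4 : A 1 4 0 = 0 := by
    have := hD 0 4
    rw [g04] at this
    exact (mul_eq_zero.mp this).resolve_left ha
  have C3 : A 2 3 0 = 0 := by
    have := hD 0 3
    rw [d03] at this
    exact (mul_eq_zero.mp (neg_eq_zero.mp this)).resolve_left ha
  have C2 : A 2 2 0 = 0 := by
    have := hD 1 2
    rw [c12] at this
    exact (mul_eq_zero.mp (neg_eq_zero.mp this)).resolve_left hb
  have B2 : A 1 2 0 = 0 := by
    have := hD 2 2
    rw [c22] at this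
    exact (mul_eq_zero.mp (neg_eq_zero.mp this)).resolve_left hc
  have C1 : A 2 1 0 = 0 := by rw [hS 2 1 0, a21, neg_zero]
  have A0 : A 0 0 1 = 0 := by rw [hS 0 0 1, b00, neg_zero]
  have A4 : A 0 4 1 = 0 := by rw [hS 0 4 1, b04, B1, mul_zero, neg_zero]
  have A3 : A 0 3 1 = 0 := by rw [hS 0 3 1, b03, C1, mul_zero, neg_zero, neg_zero]
  obtain ⟨s, hs⟩ : ∃ s, s = A 0 1 2 := ⟨_, rfl⟩
  have A2 : A 0 2 1 = -s := by rw [hS 0 2 1, hs]
  have C4 : A 2 4 0 = -s := by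
    have := hS 1 2 4
    rw [c14, g12, A2, neg_neg] at this
    exact (mul_left_cancel₀ hb this).symm
  have B3 : A 1 3 0 = -s := by
    have := hS 0 3 4
    rw [d04, g03, C4, neg_neg] at this
    exact mul_left_cancel₀ ha this
  have D0 : A 1 0 3 = s := by rw [hS 1 0 3, B3, neg_neg]
  have E0 : A 2 0 4 = s := by rw [hS 2 0 4, C4, neg_neg]
  have D1 : A 1 1 3 = s := by rw [hS 1 1 3, d11, B3, neg_neg]
  have E1 : A 2 1 4 = 0 := by rw [hS 2 1 4, g21, neg_zero]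
  have D2 : A 1 2 3 = 0 := by rw [hS 1 2 3, d12, C3, mul_zero, neg_zero, neg_zero]
  have E2 : A 2 2 4 = 0 := by rw [hS 2 2 4, g22, B4, mul_zero, neg_zero, neg_zero]
  have D3 : A 1 3 3 = 0 := hD 1 3
  have E3 : A 2 3 4 = 0 := by rw [hS 2 3 4, g23, A4, mul_zero, neg_zero]
  have D4 : A 1 4 3 = 0 := by rw [hS 1 4 3, d14, A3, mul_zero, neg_zero]
  have E4 : A 2 4 4 = 0 := hD 2 4
  refine ⟨s, fun i => ?_⟩
  ext j k
  have ca := mul_comm a s
  have cb := mul_comm b s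
  have cc := mul_comm c s
  fin_cases i <;> fin_cases j <;> fin_cases k <;>
    simp [BB, ca, cb, cc, a00, a11, a21, a04, a03, a14, a12, a23, a22, a02, b00, b11, b21, b04, b03, b14,
      b12, b23, b22, b02, c00, c11, c21, c04, c03, c14, c12, c23, c22, c02, d00, d11, d21, d04,
      d03, d14, d12, d23, d22, d02, g00, g11, g21, g04, g03, g14, g12, g23, g22, g02, A0, B0,
      C0, D0, E0, AA1, B1, C1, D1, E1, A2, B2, C2, D2, E2, A3, B3, C3, D3, E3, A4, B4, C4, D4,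
      E4]

end Pool.Agent.KS6_98.V5F
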