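import Pool.Agent.KS6_98.V5F.Defs
import Pool.Agent.KS6_98.V5F.Height

/-!
# Transfer of Manin's conjecture (all adelic heights) under linear changes of coordinates

If `A' i = ∑ j, h i j • (gᵀ * A j * g)` with `g`, `h` invertible over `ℚ`, then `MAN A'` implies `MAN A`.
-/

set_option autoImplicit false

namespace Pool.Agent.KS6_98.V5F

open Finset Filter Topology Matrix

/-- The elements of `Nat.Primes` are prime numbers. -/
local instance factPrime'' (l : Nat.Primes) : Fact (l : ℕ).Prime := ⟨l.2⟩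

section alg

variable {L : Type} [Field L]

/-- the matrix over `L` -/
def lm (L : Type) [Field L] {m n : Type} (g : Matrix m n ℚ) : Matrix m n L := g.map fun r => (r : L)

variable [CharZero L]

theorem lm_mul {m n k : Type} [Fintype n] (g : Matrix m n ℚ) (g' : Matrix n k ℚ) :
    lm L (g * g') = lm L g * lm L g' :=
  Matrix.map_mul (f := Rat.castHom L)

omit [CharZero L] in
theorem lm_one {n : Type} [DecidableEq n] : lm L (1 : Matrix n n ℚ) = 1 :=
  Matrix.map_one _ (by simp) (by simp)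

omit [CharZero L] in
theorem lm_transpose {m n : Type} (g : Matrix m n ℚ) : lm L gᵀ = (lm L g)ᵀ := rfl

omit [CharZero L] in
/-- action on the Pluecker coordinates -/
def kr (G : Matrix (Fin 5) (Fin 5) L) (q : Fin 5 × Fin 5 → L) : Fin 5 × Fin 5 → L :=
  (kroneckerMap (· * ·) G G).mulVec q

omit [CharZero L] in
theorem kr_apply (G : Matrix (Fin 5) (Fin 5) L) (q : Fin 5 × Fin 5 → L) (p : Fin 5 × Fin 5) :
    kr G q p = ∑ c, (G p.1 c.1 * G p.2 c.2) * q c := rfl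

omit [CharZero L] in
theorem kr_kr (G H : Matrix (Fin 5) (Fin 5) L) (q : Fin 5 × Fin 5 → L) :
    kr G (kr H q) = kr (G * H) q := by
  rw [kr, kr, kr, Matrix.mulVec_mulVec, Matrix.mul_kronecker_mul]

omit [CharZero L] in
theorem kr_one (q : Fin 5 × Fin 5 → L) : kr 1 q = q := by
  rw [kr, Matrix.one_kronecker_one, Matrix.one_mulVec]

omit [CharZero L] in
theorem kr_smul (G : Matrix (Fin 5) (Fin 5) L) (a : L) (q : Fin 5 × Fin 5 → L) :
    kr G (a • q) = a • kr G q := Matrix.mulVec_smul _ _ _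

omit [CharZero L] in
theorem kr_wedge (G : Matrix (Fin 5) (Fin 5) L) (x y : Fin 5 → L) :
    kr G (wedge x y) = wedge (G.mulVec x) (G.mulVec y) := by
  funext p
  rw [kr_apply, Fintype.sum_prod_type]
  simp only [wedge, Matrix.mulVec, dotProduct]
  rw [Finset.sum_mul_sum, Finset.sum_mul_sum, Finset.sum_comm (s := univ) (t := univ)
    (f := fun i j => G p.2 i * x i * (G p.1 j * y j)), ← Finset.sum_sub_distrib]
  refine Finset.sum_congr rfl fun i _ => ?_
  rw [← Finset.sum_sub_distrib]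
  refine Finset.sum_congr rfl fun j _ => ?_
  ring

omit [CharZero L] in
/-- the form as a dot product -/
theorem isoA_iff (A : Fin 3 → Matrix (Fin 5) (Fin 5) ℚ) (x y : Fin 5 → L) :
    IsoA A x y ↔ ∀ i, x ⬝ᵥ ((lm L (A i)).mulVec y) = 0 := by
  refine forall_congr' fun i => ?_
  have : ∑ j, ∑ k, (A i j k : L) * x j * y k = x ⬝ᵥ ((lm L (A i)).mulVec y) := by
    simp only [dotProduct, Matrix.mulVec, lm, Matrix.map_apply, Finset.mul_sum]
    refine Finset.sum_congr rfl fun j _ => Finset.sum_congr rfl fun k _ => ?_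
    ring
  rw [this]

theorem form_eq {A A' : Fin 3 → Matrix (Fin 5) (Fin 5) ℚ} {g : Matrix (Fin 5) (Fin 5) ℚ}
    {h : Matrix (Fin 3) (Fin 3) ℚ} (hA : ∀ i, A' i = ∑ j, h i j • (gᵀ * A j * g)) (x y : Fin 5 → L)
    (i : Fin 3) : x ⬝ᵥ ((lm L (A' i)).mulVec y) =
      ((lm L h).mulVec fun j => ((lm L g).mulVec x) ⬝ᵥ ((lm L (A j)).mulVec ((lm L g).mulVec y))) i := by
  have h1 : lm L (A' i) = ∑ j, (h i j : L) • ((lm L g)ᵀ * lm L (A j) * lm L g) := by
    rw [hA i]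
    have h2 : lm L (∑ j, h i j • (gᵀ * A j * g)) = ∑ j, lm L (h i j • (gᵀ * A j * g)) := by
      ext a b
      simp [lm, Matrix.map_apply, Matrix.sum_apply]
    rw [h2]
    refine Finset.sum_congr rfl fun j _ => ?_
    rw [← lm_transpose, ← lm_mul, ← lm_mul]
    ext a b
    simp [lm, Matrix.map_apply]
  rw [h1]
  simp only [Matrix.sum_mulVec, dotProduct_sum, Matrix.smul_mulVec, dotProduct_smul, smul_eq_mul]
  rw [Matrix.mulVec, dotProduct]
  refine Finset.sum_congr rfl fun j _ => ?_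
  rw [← Matrix.mulVec_mulVec, ← Matrix.mulVec_mulVec, Matrix.dotProduct_mulVec,
    Matrix.vecMul_transpose]
  rfl

theorem isoA_transfer {A A' : Fin 3 → Matrix (Fin 5) (Fin 5) ℚ} {g : Matrix (Fin 5) (Fin 5) ℚ}
    {h : Matrix (Fin 3) (Fin 3) ℚ} (hh : IsUnit h.det)
    (hA : ∀ i, A' i = ∑ j, h i j • (gᵀ * A j * g)) (x y : Fin 5 → L) :
    IsoA A' x y ↔ IsoA A ((lm L g).mulVec x) ((lm L g).mulVec y) := by
  rw [isoA_iff, isoA_iff]
  set v : Fin 3 → L := fun j => ((lm L g).mulVec x) ⬝ᵥ ((lm L (A j)).mulVec ((lm L g).mulVec y)) with hv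
  have h1 : (∀ i, x ⬝ᵥ ((lm L (A' i)).mulVec y) = 0) ↔ (lm L h).mulVec v = 0 := by
    rw [funext_iff]
    refine forall_congr' fun i => ?_
    rw [form_eq hA]
    rfl
  have h2 : (∀ i, ((lm L g).mulVec x) ⬝ᵥ ((lm L (A i)).mulVec ((lm L g).mulVec y)) = 0) ↔ v = 0 := by
    rw [funext_iff]
    rfl
  rw [h1, h2]
  constructor
  · intro h3
    have h4 : lm L h⁻¹ * lm L h = 1 := by
      rw [← lm_mul, Matrix.nonsing_inv_mul _ hh, lm_one]
    have h5 : (lm L h⁻¹).mulVec ((lm L h).mulVec v) = 0 := by rw [h3, Matrix.mulVec_zero]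
    rwa [Matrix.mulVec_mulVec, h4, Matrix.one_mulVec] at h5
  · intro h3
    rw [h3, Matrix.mulVec_zero]

variable {g : Matrix (Fin 5) (Fin 5) ℚ}

theorem kr_inv_left (hg : IsUnit g.det) (q : Fin 5 × Fin 5 → L) :
    kr (lm L g⁻¹) (kr (lm L g) q) = q := by
  rw [kr_kr, ← lm_mul, Matrix.nonsing_inv_mul _ hg, lm_one, kr_one]

theorem kr_inv_right (hg : IsUnit g.det) (q : Fin 5 × Fin 5 → L) :
    kr (lm L g) (kr (lm L g⁻¹) q) = q := by
  rw [kr_kr, ← lm_mul, Matrix.mul_nonsing_inv _ hg, lm_one, kr_one]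

theorem kr_ne (hg : IsUnit g.det) {q : Fin 5 × Fin 5 → L} (hq : q ≠ 0) : kr (lm L g) q ≠ 0 := by
  intro h
  apply hq
  rw [← kr_inv_left hg q, h, kr, Matrix.mulVec_zero]

theorem wedge_transfer {A A' : Fin 3 → Matrix (Fin 5) (Fin 5) ℚ}
    {h : Matrix (Fin 3) (Fin 3) ℚ} (hg : IsUnit g.det) (hh : IsUnit h.det)
    (hA : ∀ i, A' i = ∑ j, h i j • (gᵀ * A j * g)) (q : Fin 5 × Fin 5 → L) :
    (∃ x y : Fin 5 → L, IsoA A' x y ∧ q = wedge x y) ↔
      ∃ x y : Fin 5 → L, IsoA A x y ∧ kr (lm L g) q = wedge x y := by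
  constructor
  · rintro ⟨x, y, h1, rfl⟩
    exact ⟨_, _, (isoA_transfer hh hA x y).1 h1, kr_wedge _ x y⟩
  · rintro ⟨x, y, h1, h2⟩
    have h3 : (lm L g).mulVec ((lm L g⁻¹).mulVec x) = x := by
      rw [Matrix.mulVec_mulVec, ← lm_mul, Matrix.mul_nonsing_inv _ hg, lm_one, Matrix.one_mulVec]
    have h4 : (lm L g).mulVec ((lm L g⁻¹).mulVec y) = y := by
      rw [Matrix.mulVec_mulVec, ← lm_mul, Matrix.mul_nonsing_inv _ hg, lm_one, Matrix.one_mulVec]
    refine ⟨(lm L g⁻¹).mulVec x, (lm L g⁻¹).mulVec y, ?_, ?_⟩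
    · rw [isoA_transfer hh hA, h3, h4]
      exact h1
    · rw [← kr_wedge, ← h2, kr_inv_left hg]

end alg

section cone

variable {L : Type} [NormedField L] [CharZero L] {A A' : Fin 3 → Matrix (Fin 5) (Fin 5) ℚ}
  {g : Matrix (Fin 5) (Fin 5) ℚ} {h : Matrix (Fin 3) (Fin 3) ℚ}

theorem cone_transfer (hg : IsUnit g.det) (hh : IsUnit h.det)
    (hA : ∀ i, A' i = ∑ j, h i j • (gᵀ * A j * g)) {q : Fin 5 × Fin 5 → L} (hq : q ∈ Cone A' L) :
    kr (lm L g) q ∈ Cone A L :=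
  ⟨kr_ne hg hq.1, (wedge_transfer hg hh hA q).1 hq.2⟩

omit [CharZero L] in
theorem kr_continuous (G : Matrix (Fin 5) (Fin 5) L) : Continuous (kr G) := by
  unfold kr
  exact continuous_const.matrix_mulVec continuous_id

/-- the factor of the norms -/
noncomputable def rat (G : Matrix (Fin 5) (Fin 5) L) (q : Fin 5 × Fin 5 → L) : ℝ :=
  (‖kr G q‖ / ‖q‖) ^ 2

theorem factor_transfer (hg : IsUnit g.det) (hh : IsUnit h.det)
    (hA : ∀ i, A' i = ∑ j, h i j • (gᵀ * A j * g)) {ψ : (Fin 5 × Fin 5 → L) → ℝ}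
    (hψ : IsFactor A L ψ) : IsFactor A' L fun q => ψ (kr (lm L g) q) * rat (lm L g) q where
  positive q hq := by
    have h1 := hψ.positive _ (cone_transfer hg hh hA hq)
    have h2 : 0 < ‖q‖ := norm_pos_iff.2 hq.1
    have h3 : 0 < ‖kr (lm L g) q‖ := norm_pos_iff.2 (kr_ne hg hq.1)
    rw [rat]
    positivity
  continuous := by
    refine ContinuousOn.mul (hψ.continuous.comp (kr_continuous _).continuousOn
      fun q hq => cone_transfer hg hh hA hq) ?_
    refine ContinuousOn.pow (ContinuousOn.div (kr_continuous _).norm.continuousOn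
      continuous_norm.continuousOn fun q hq => (norm_pos_iff.2 hq.1).ne') 2
  invariant a ha q hq := by
    rw [rat, rat, kr_smul, hψ.invariant a ha _ (cone_transfer hg hh hA hq), norm_smul, norm_smul,
      mul_div_mul_left _ _ (norm_ne_zero_iff.2 ha)]

theorem one_transfer (hg : IsUnit g.det) : IsFactor A' L fun q => rat (lm L g) q where
  positive q hq := by
    have h2 : 0 < ‖q‖ := norm_pos_iff.2 hq.1
    have h3 : 0 < ‖kr (lm L g) q‖ := norm_pos_iff.2 (kr_ne hg hq.1)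
    rw [rat]
    positivity
  continuous := ContinuousOn.pow (ContinuousOn.div (kr_continuous _).norm.continuousOn
      continuous_norm.continuousOn fun q hq => (norm_pos_iff.2 hq.1).ne') 2
  invariant a ha q hq := by
    rw [rat, rat, kr_smul, norm_smul, norm_smul, mul_div_mul_left _ _ (norm_ne_zero_iff.2 ha)]

end cone

/-! ### integral matrices -/

theorem kr_norm_le (l : Nat.Primes) {G : Matrix (Fin 5) (Fin 5) ℚ_[l]} (hG : ∀ i j, ‖G i j‖ ≤ 1)
    (q : Fin 5 × Fin 5 → ℚ_[l]) : ‖kr G q‖ ≤ ‖q‖ := by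
  refine (pi_norm_le_iff_of_nonneg (norm_nonneg _)).2 fun p => ?_
  rw [kr_apply]
  refine IsUltrametricDist.norm_sum_le_of_forall_le_of_nonneg (norm_nonneg _) fun c _ => ?_
  rw [norm_mul, norm_mul]
  calc ‖G p.1 c.1‖ * ‖G p.2 c.2‖ * ‖q c‖ ≤ 1 * 1 * ‖q‖ := by
        have := hG p.1 c.1
        have := hG p.2 c.2
        have := norm_le_pi_norm q c
        gcongr
    _ = ‖q‖ := by ring

/-- all entries are integral outside of a finite set of primes -/
theorem exists_integral (g : Matrix (Fin 5) (Fin 5) ℚ) : ∃ T : Finset Nat.Primes,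
    ∀ l : Nat.Primes, l ∉ T → ∀ i j, ‖lm ℚ_[l] g i j‖ ≤ 1 := by
  classical
  have h1 : ∀ p : Fin 5 × Fin 5, ∃ T : Finset Nat.Primes, ∀ l : Nat.Primes,
      (l : ℕ) ∣ (g p.1 p.2).den → l ∈ T := fun p => exists_primes _ (g p.1 p.2).den_nz
  choose T hT using h1
  refine ⟨Finset.univ.biUnion T, fun l hl i j => ?_⟩
  apply Padic.norm_rat_le_one
  intro hd
  exact hl (Finset.mem_biUnion.2 ⟨(i, j), Finset.mem_univ _, hT (i, j) l hd⟩)

theorem exists_bad {g : Matrix (Fin 5) (Fin 5) ℚ} (hg : IsUnit g.det) : ∃ T : Finset Nat.Primes,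
    ∀ l : Nat.Primes, l ∉ T → ∀ q : Fin 5 × Fin 5 → ℚ_[l], ‖kr (lm ℚ_[l] g) q‖ = ‖q‖ := by
  classical
  obtain ⟨T1, h1⟩ := exists_integral g
  obtain ⟨T2, h2⟩ := exists_integral g⁻¹
  refine ⟨T1 ∪ T2, fun l hl q => ?_⟩
  rw [Finset.notMem_union] at hl
  apply le_antisymm (kr_norm_le l (h1 l hl.1) q)
  conv_lhs => rw [← kr_inv_left hg q]
  exact kr_norm_le l (h2 l hl.2) _

/-! ### the map on the projective space -/

abbrev PP := Projectivization ℚ (Fin 5 × Fin 5 → ℚ)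

variable {g : Matrix (Fin 5) (Fin 5) ℚ}

theorem kr_inj (hg : IsUnit g.det) :
    Function.Injective (Matrix.mulVecLin (kroneckerMap (· * ·) (lm ℚ g) (lm ℚ g))) := by
  intro q q' h
  have h' : kr (lm ℚ g) q = kr (lm ℚ g) q' := h
  rw [← kr_inv_left hg q, h', kr_inv_left hg]

/-- the map on the projective space -/
noncomputable def mp (hg : IsUnit g.det) : PP → PP :=
  Projectivization.map (Matrix.mulVecLin (kroneckerMap (· * ·) (lm ℚ g) (lm ℚ g))) (kr_inj hg)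

theorem mp_injective (hg : IsUnit g.det) : Function.Injective (mp hg) :=
  Projectivization.map_injective _ _

theorem mp_mk (hg : IsUnit g.det) {v : Fin 5 × Fin 5 → ℚ} (hv : v ≠ 0) :
    mp hg (Projectivization.mk ℚ v hv) = Projectivization.mk ℚ (kr (lm ℚ g) v) (kr_ne hg hv) :=
  Projectivization.map_mk _ _ v hv

theorem mp_rep (hg : IsUnit g.det) (p : PP) :
    ∃ u : ℚ, u ≠ 0 ∧ (mp hg p).rep = u • kr (lm ℚ g) p.rep := by
  have h1 : mp hg p = Projectivization.mk ℚ (kr (lm ℚ g) p.rep) (kr_ne hg p.rep_nonzero) := by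
    conv_lhs => rw [← p.mk_rep]
    exact mp_mk hg p.rep_nonzero
  obtain ⟨a, ha⟩ := Projectivization.exists_smul_eq_mk_rep ℚ (kr (lm ℚ g) p.rep)
    (kr_ne hg p.rep_nonzero)
  refine ⟨a, a.ne_zero, ?_⟩
  rw [h1, ← ha]
  rfl

theorem mp_surjective (hg : IsUnit g.det) (p : PP) : ∃ p', mp hg p' = p := by
  have h0 : kr (lm ℚ g⁻¹) p.rep ≠ 0 := by
    intro h
    apply p.rep_nonzero
    rw [← kr_inv_right hg p.rep, h, kr, Matrix.mulVec_zero]
  refine ⟨Projectivization.mk ℚ _ h0, ?_⟩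
  rw [mp_mk]
  conv_rhs => rw [← p.mk_rep]
  congr 1
  exact kr_inv_right hg p.rep

theorem wedge_smul {L : Type} [Field L] (u : L) (x y : Fin 5 → L) :
    u • wedge x y = wedge (u • x) y := by
  funext p
  simp only [wedge, Pi.smul_apply, smul_eq_mul]
  ring

theorem isoA_smul {L : Type} [Field L] {A : Fin 3 → Matrix (Fin 5) (Fin 5) ℚ} (u : L)
    {x y : Fin 5 → L} (h : IsoA A x y) : IsoA A (u • x) y := by
  rw [isoA_iff] at h ⊢
  intro i
  rw [smul_dotProduct, h i, smul_zero]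

theorem smul_iff {L : Type} [Field L] {A : Fin 3 → Matrix (Fin 5) (Fin 5) ℚ} {u : L} (hu : u ≠ 0)
    (q : Fin 5 × Fin 5 → L) : (∃ x y : Fin 5 → L, IsoA A x y ∧ u • q = wedge x y) ↔
      ∃ x y : Fin 5 → L, IsoA A x y ∧ q = wedge x y := by
  constructor
  · rintro ⟨x, y, h1, h2⟩
    refine ⟨u⁻¹ • x, y, isoA_smul _ h1, ?_⟩
    rw [← wedge_smul, ← h2, smul_smul, inv_mul_cancel₀ hu, one_smul]
  · rintro ⟨x, y, h1, rfl⟩
    exact ⟨u • x, y, isoA_smul _ h1, wedge_smul _ _ _⟩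

variable {A A' : Fin 3 → Matrix (Fin 5) (Fin 5) ℚ} {h : Matrix (Fin 3) (Fin 3) ℚ}

theorem isPoint_mp (hg : IsUnit g.det) (hh : IsUnit h.det)
    (hA : ∀ i, A' i = ∑ j, h i j • (gᵀ * A j * g)) (p : PP) :
    IsPoint A (mp hg p) ↔ IsPoint A' p := by
  obtain ⟨u, hu, he⟩ := mp_rep hg p
  rw [IsPoint, IsPoint, he, smul_iff hu]
  exact (wedge_transfer hg hh hA p.rep).symm

/-- the vector over `L` -/
def lv (L : Type) [Field L] (q : Fin 5 × Fin 5 → ℚ) : Fin 5 × Fin 5 → L := fun i => (q i : L)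

theorem lv_kr {L : Type} [Field L] [CharZero L] (q : Fin 5 × Fin 5 → ℚ) :
    lv L (kr (lm ℚ g) q) = kr (lm L g) (lv L q) := by
  funext p
  simp only [lv, kr_apply, lm, Matrix.map_apply]
  push_cast
  rfl

theorem lv_smul {L : Type} [Field L] [CharZero L] (u : ℚ) (q : Fin 5 × Fin 5 → ℚ) :
    lv L (u • q) = (u : L) • lv L q := by
  funext p
  simp [lv]

theorem lv_cone {L : Type} [NormedField L] [CharZero L] {p : PP} (hp : IsPoint A p) :
    lv L p.rep ∈ Cone A L := by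
  obtain ⟨x, y, h1, h2⟩ := hp
  refine ⟨fun h0 => p.rep_nonzero ?_, fun i => (x i : L), fun i => (y i : L), ?_, ?_⟩
  · funext i
    have := congrFun h0 i
    simpa [lv] using this
  · intro i
    have := h1 i
    have h3 : ((∑ j, ∑ k, A i j k * x j * y k : ℚ) : L) = 0 := by
      have h4 : ∑ j, ∑ k, A i j k * x j * y k = 0 := by simpa using this
      rw [h4, Rat.cast_zero]
    push_cast at h3
    exact h3
  · rw [h2]
    funext i
    simp [lv, wedge]

open Classical in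
/-- the local factors at the primes -/
noncomputable def phi (g : Matrix (Fin 5) (Fin 5) ℚ) (S : Finset Nat.Primes)
    (φ : ∀ l : Nat.Primes, (Fin 5 × Fin 5 → ℚ_[l]) → ℝ) (l : Nat.Primes)
    (q : Fin 5 × Fin 5 → ℚ_[l]) : ℝ :=
  (if l ∈ S then φ l (kr (lm ℚ_[l] g) q) else 1) * rat (lm ℚ_[l] g) q

/-- **The heights** -/
theorem height_mp (hg : IsUnit g.det) (hh : IsUnit h.det)
    (hA : ∀ i, A' i = ∑ j, h i j • (gᵀ * A j * g)) {T : Finset Nat.Primes}
    (hT : ∀ l : Nat.Primes, l ∉ T → ∀ q : Fin 5 × Fin 5 → ℚ_[l], ‖kr (lm ℚ_[l] g) q‖ = ‖q‖)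
    {S : Finset Nat.Primes} (hST : S ⊆ T)
    {ψ : (Fin 5 × Fin 5 → ℝ) → ℝ} {φ : ∀ l : Nat.Primes, (Fin 5 × Fin 5 → ℚ_[l]) → ℝ}
    (hψ : IsFactor A ℝ ψ) (hφ : ∀ l ∈ S, IsFactor A ℚ_[l] (φ l)) {p : PP} (hp : IsPoint A' p) :
    height S ψ φ (mp hg p) =
      height T (fun q => ψ (kr (lm ℝ g) q) * rat (lm ℝ g) q) (phi g S φ) p := by
  classical
  obtain ⟨u, hu, he⟩ := mp_rep hg p
  set q := p.rep with hq
  have hq0 : q ≠ 0 := p.rep_nonzero
  -- the standard heights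
  have hH1 : (mp hg p).mulHeight = Height.mulHeight (kr (lm ℚ g) q) := by
    have e : (mp hg p).mulHeight = Height.mulHeight (mp hg p).rep := by
      conv_lhs => rw [← (mp hg p).mk_rep]
      exact Projectivization.mulHeight_mk _
    rw [e, he, Height.mulHeight_smul_eq_mulHeight _ hu]
  have hH2 : p.mulHeight = Height.mulHeight q := by
    conv_lhs => rw [← p.mk_rep]
    exact Projectivization.mulHeight_mk _
  obtain ⟨T1, hT1⟩ := mulHeight_eq_prod hq0
  obtain ⟨T2, hT2⟩ := mulHeight_eq_prod (kr_ne (L := ℚ) hg hq0)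
  have hs1 : T1 ⊆ T ∪ (T1 ∪ T2) := fun x hx => by simp [hx]
  have hs2 : T2 ⊆ T ∪ (T1 ∪ T2) := fun x hx => by simp [hx]
  have hs3 : T ⊆ T ∪ (T1 ∪ T2) := Finset.subset_union_left
  have e1 := hT1 _ hs1
  have e2 := hT2 _ hs2
  set U := T ∪ (T1 ∪ T2)
  have hpos : ∀ l : Nat.Primes, ‖lv ℚ_[l] q‖ ≠ 0 := by
    intro l
    rw [norm_ne_zero_iff]
    intro h0
    apply hq0
    funext i
    have := congrFun h0 i
    simpa [lv] using this
  have hposr : ‖lv ℝ q‖ ≠ 0 := by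
    rw [norm_ne_zero_iff]
    intro h0
    apply hq0
    funext i
    have := congrFun h0 i
    simpa [lv] using this
  have e3 : Height.mulHeight (kr (lm ℚ g) q) ^ 2 = Height.mulHeight q ^ 2 *
      (rat (lm ℝ g) (lv ℝ q) * ∏ l ∈ T, rat (lm ℚ_[l] g) (lv ℚ_[l] q)) := by
    have e4 : ∏ l ∈ T, rat (lm ℚ_[l] g) (lv ℚ_[l] q) = ∏ l ∈ U, rat (lm ℚ_[l] g) (lv ℚ_[l] q) := by
      refine Finset.prod_subset hs3 fun l _ hl => ?_
      rw [rat, hT l hl, div_self (hpos l), one_pow]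
    have e5 : Height.mulHeight q = ‖lv ℝ q‖ * ∏ l ∈ U, ‖lv ℚ_[l] q‖ := e1
    have e6 : Height.mulHeight (kr (lm ℚ g) q) =
        ‖kr (lm ℝ g) (lv ℝ q)‖ * ∏ l ∈ U, ‖kr (lm ℚ_[l] g) (lv ℚ_[l] q)‖ := by
      rw [← lv_kr, Finset.prod_congr rfl fun l _ => by rw [← lv_kr]]
      exact e2
    have e7 : ∏ l ∈ U, rat (lm ℚ_[l] g) (lv ℚ_[l] q) =
        ((∏ l ∈ U, ‖kr (lm ℚ_[l] g) (lv ℚ_[l] q)‖) / ∏ l ∈ U, ‖lv ℚ_[l] q‖) ^ 2 := by
      rw [← Finset.prod_div_distrib, ← Finset.prod_pow]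
      rfl
    have e8 : ∏ l ∈ U, ‖lv ℚ_[l] q‖ ≠ 0 := Finset.prod_ne_zero_iff.2 fun l _ => hpos l
    rw [e4, e7, e6, e5, rat]
    field_simp
  have hpt := (isPoint_mp hg hh hA p).2 hp
  have hk : ∀ (L : Type) [NormedField L] [CharZero L], kr (lm L g) (lv L q) ∈ Cone A L := by
    intro L _ _
    exact cone_transfer hg hh hA (lv_cone hp)
  have e9 : ψ (lv ℝ (mp hg p).rep) = ψ (kr (lm ℝ g) (lv ℝ q)) := by
    rw [he, lv_smul, lv_kr]
    exact hψ.invariant _ (by exact_mod_cast hu) _ (hk ℝ)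
  have e10 : ∀ l ∈ S, φ l (lv ℚ_[l] (mp hg p).rep) = φ l (kr (lm ℚ_[l] g) (lv ℚ_[l] q)) := by
    intro l hl
    rw [he, lv_smul, lv_kr]
    exact (hφ l hl).invariant _ (by exact_mod_cast hu) _ (hk ℚ_[l])
  have e11 : ∏ l ∈ T, phi g S φ l (lv ℚ_[l] q) =
      (∏ l ∈ S, φ l (kr (lm ℚ_[l] g) (lv ℚ_[l] q))) * ∏ l ∈ T, rat (lm ℚ_[l] g) (lv ℚ_[l] q) := by
    have : ∏ l ∈ S, φ l (kr (lm ℚ_[l] g) (lv ℚ_[l] q)) =
        ∏ l ∈ T, (if l ∈ S then φ l (kr (lm ℚ_[l] g) (lv ℚ_[l] q)) else 1) := by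
      rw [← Finset.prod_filter, Finset.filter_mem_eq_inter, Finset.inter_eq_right.2 hST]
    rw [this, ← Finset.prod_mul_distrib]
    rfl
  have f1 : height S ψ φ (mp hg p) = (mp hg p).mulHeight ^ 2 *
      (ψ (lv ℝ (mp hg p).rep) * ∏ l ∈ S, φ l (lv ℚ_[l] (mp hg p).rep)) := rfl
  have f2 : height T (fun q => ψ (kr (lm ℝ g) q) * rat (lm ℝ g) q) (phi g S φ) p =
      p.mulHeight ^ 2 * (ψ (kr (lm ℝ g) (lv ℝ q)) * rat (lm ℝ g) (lv ℝ q) *
        ∏ l ∈ T, phi g S φ l (lv ℚ_[l] q)) := rfl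
  rw [f1, f2, e9, Finset.prod_congr rfl e10, e11, hH1, hH2, e3]
  ring

/-- **Transfer** -/
theorem transfer (hg : IsUnit g.det) (hh : IsUnit h.det)
    (hA : ∀ i, A' i = ∑ j, h i j • (gᵀ * A j * g)) (hM : MAN A') : MAN A := by
  classical
  intro S ψ φ hψ hφ
  obtain ⟨T0, hT0⟩ := exists_bad hg
  set T := S ∪ T0 with hTd
  have hT : ∀ l : Nat.Primes, l ∉ T → ∀ q : Fin 5 × Fin 5 → ℚ_[l], ‖kr (lm ℚ_[l] g) q‖ = ‖q‖ :=
    fun l hl => hT0 l fun h0 => hl (Finset.mem_union_right _ h0)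
  have hST : S ⊆ T := Finset.subset_union_left
  obtain ⟨c, hc, hlim⟩ := hM T (fun q => ψ (kr (lm ℝ g) q) * rat (lm ℝ g) q) (phi g S φ)
    (factor_transfer hg hh hA hψ) (fun l _ => by
      by_cases hl : l ∈ S
      · have h1 := factor_transfer hg hh hA (hφ l hl)
        have h2 : phi g S φ l = fun q => φ l (kr (lm ℚ_[l] g) q) * rat (lm ℚ_[l] g) q := by
          funext q
          rw [phi, if_pos hl]
        rw [h2]
        exact h1
      · have h2 : phi g S φ l = fun q => rat (lm ℚ_[l] g) q := by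
          funext q
          rw [phi, if_neg hl, one_mul]
        rw [h2]
        exact one_transfer hg)
  refine ⟨c, hc, ?_⟩
  have hb : ∀ B : ℝ, bounded A S ψ φ B = mp hg ''
      bounded A' T (fun q => ψ (kr (lm ℝ g) q) * rat (lm ℝ g) q) (phi g S φ) B := by
    intro B
    ext p
    constructor
    · rintro ⟨h1, h2⟩
      obtain ⟨p', rfl⟩ := mp_surjective hg p
      have h3 := (isPoint_mp hg hh hA p').1 h1
      refine ⟨p', ⟨h3, ?_⟩, rfl⟩
      rw [← height_mp hg hh hA hT hST hψ hφ h3]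
      exact h2
    · rintro ⟨p', ⟨h1, h2⟩, rfl⟩
      refine ⟨(isPoint_mp hg hh hA p').2 h1, ?_⟩
      rw [height_mp hg hh hA hT hST hψ hφ h1]
      exact h2
  refine hlim.congr fun B => ?_
  rw [hb B, Set.ncard_image_of_injective _ (mp_injective hg)]

end Pool.Agent.KS6_98.V5F
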